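import Pool.Agent.ISO.StmtsR

/-!
# Squad ISO, block R, row TRA: translation of a local functional equation
-/

set_option autoImplicit false

namespace Pool.Agent.ISO.R.H19

open Finset Pool.Agent.Helper6_Mono Pool.Agent.Helper32_OMP Pool.Agent.ISO Pool.Agent.ISO.R
open MvPolynomial

variable {σ : Type}

/-- translation as an algebra homomorphism -/
noncomputable def T (z : σ → ℂ) : MvPolynomial σ ℂ →ₐ[ℂ] MvPolynomial σ ℂ :=
  aeval (fun l => X l + C (z l))

theorem T_X (z : σ → ℂ) (l : σ) : T z (X l) = X l + C (z l) := by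
  unfold T
  rw [aeval_X]

theorem T_C (z : σ → ℂ) (c : ℂ) : T z (C c) = C c := by
  unfold T
  rw [aeval_C]
  rfl

theorem tra_eq (z : σ → ℂ) (q : MvPolynomial σ ℂ) : tra z q = T z q := rfl

theorem T_inv (z : σ → ℂ) (q : MvPolynomial σ ℂ) : T (-z) (T z q) = q := by
  have h : (T (-z)).comp (T z) = AlgHom.id ℂ _ := by
    apply algHom_ext
    intro l
    rw [AlgHom.comp_apply, T_X, map_add, T_X, T_C, AlgHom.id_apply, Pi.neg_apply, C_neg]
    ring
  have := congrArg (fun φ : MvPolynomial σ ℂ →ₐ[ℂ] MvPolynomial σ ℂ => φ q) h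
  exact this

theorem T_pderiv (z : σ → ℂ) (i : σ) (q : MvPolynomial σ ℂ) :
    T z (pderiv i q) = pderiv i (T z q) := by
  induction q using MvPolynomial.induction_on with
  | C a => rw [pderiv_C, map_zero, T_C, pderiv_C]
  | add p q hp hq => rw [map_add, map_add, map_add, map_add, hp, hq]
  | mul_X p l hp =>
    have hX : T z (pderiv i (X l)) = pderiv i (T z (X l)) := by
      rw [T_X, map_add, pderiv_C, add_zero]
      classical
      rw [pderiv_X]
      by_cases h : i = l
      · subst h
        simp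
      · rw [Pi.single_eq_of_ne (Ne.symm h), map_zero]
    rw [Derivation.leibniz, map_mul, Derivation.leibniz, map_add]
    simp only [smul_eq_mul]
    rw [map_mul, map_mul, hp, hX]

theorem T_dWord (z : σ → ℂ) (w : List σ) (q : MvPolynomial σ ℂ) :
    T z (dWord w q) = dWord w (T z q) := by
  induction w with
  | nil => rfl
  | cons i w ih =>
    show T z (pderiv i (dWord w q)) = pderiv i (dWord w (T z q))
    rw [T_pderiv, ih]

theorem eval_T (z : σ → ℂ) (h : MvPolynomial σ ℂ) :
    eval z (T (-z) h) = eval 0 h := by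
  have e : (aeval z : MvPolynomial σ ℂ →ₐ[ℂ] ℂ).comp (T (-z)) = aeval 0 := by
    apply algHom_ext
    intro l
    rw [AlgHom.comp_apply, T_X, map_add, aeval_X, aeval_X, aeval_C, Pi.neg_apply]
    simp
  have := congrArg (fun φ : MvPolynomial σ ℂ →ₐ[ℂ] ℂ => φ h) e
  simpa [coe_aeval_eq_eval] using this

theorem tra : TraStmt := by
  intro σ z F b hb
  obtain ⟨h, hh, P, hP⟩ := hb
  refine ⟨T (-z) h, by rw [eval_T]; exact hh,
    P.map (fun aw => (aw.1.map (T (-z)).toRingHom, aw.2)), ?_⟩
  intro n
  have e := congrArg (T (-z)) (hP n)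
  rw [map_mul, map_mul, map_pow, T_C, tra_eq, T_inv, map_list_sum, List.map_map] at e
  rw [e, List.map_map]
  apply congrArg List.sum
  apply List.map_congr_left
  intro aw _
  simp only [Function.comp_apply]
  rw [map_mul, T_dWord, map_pow, T_inv]
  apply congrArg (· * dWord aw.2 (F ^ (n + 1)))
  have := Polynomial.hom_eval₂ aw.1 (RingHom.id _) (T (-z)).toRingHom (n : MvPolynomial σ ℂ)
  rw [Polynomial.eval_map, RingHom.comp_id] at *
  rw [map_natCast] at this
  exact this

end Pool.Agent.ISO.R.H19
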